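import Pool.Agent.Helper20.GT.Stm

/-!
# Patterns made of geometric progressions: the reversal of digits (package CORE of helper20)
-/

set_option autoImplicit false

open Finset Filter Topology
open scoped Classical

namespace Pool.Agent.Helper1.GT

open Pool.Agent.Helper20.GT

/-- greedy digits in a real base -/
theorem digits {L : ℝ} (hL : 1 < L) {n : ℕ} (hn : L ≤ n) : ∀ (l : ℕ) (y : ℝ), 0 ≤ y → y ≤ L ^ l →
    ∃ w : ℕ → ℕ, (∀ k, w k < n) ∧ ∃ e : ℝ, 0 ≤ e ∧ e ≤ 1 ∧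
      y = ∑ k ∈ range l, (w k : ℝ) * L ^ k + e := by
  have hn0 : 0 < n := by
    have : (0:ℝ) < n := by linarith
    exact_mod_cast this
  intro l
  induction l with
  | zero =>
    intro y h0 h1
    exact ⟨fun _ => 0, fun _ => hn0, y, h0, by simpa using h1, by simp⟩
  | succ l ih =>
    intro y h0 h1
    have hLl : 0 < L ^ l := by positivity
    obtain ⟨v, hv⟩ : ∃ v : ℕ, v = min ⌊y / L ^ l⌋₊ (n - 1) := ⟨_, rfl⟩
    have hvn : v < n := by
      rw [hv]
      have := min_le_right ⌊y / L ^ l⌋₊ (n - 1)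
      omega
    have h2 : (v : ℝ) * L ^ l ≤ y := by
      have h5 : v ≤ ⌊y / L ^ l⌋₊ := by rw [hv]; exact min_le_left _ _
      have h6 : (v : ℝ) ≤ y / L ^ l := by
        refine le_trans ?_ (Nat.floor_le (by positivity))
        exact_mod_cast h5
      rwa [le_div_iff₀ hLl] at h6
    have h3 : y - v * L ^ l ≤ L ^ l := by
      rcases le_total ⌊y / L ^ l⌋₊ (n - 1) with h | h
      · rw [min_eq_left h] at hv
        have := Nat.lt_floor_add_one (y / L ^ l)
        rw [← hv, div_lt_iff₀ hLl] at this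
        linarith
      · rw [min_eq_right h] at hv
        have h4 : (v : ℝ) = n - 1 := by
          rw [hv, Nat.cast_sub hn0]
          simp
        rw [h4]
        rw [pow_succ] at h1
        nlinarith
    obtain ⟨w, hw, e, he0, he1, he⟩ := ih (y - v * L ^ l) (by linarith) h3
    refine ⟨fun k => if k = l then v else w k, fun k => ?_, e, he0, he1, ?_⟩
    · show (if k = l then v else w k) < n
      split_ifs
      · exact hvn
      · exact hw k
    · rw [sum_range_succ]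
      have h7 : ∑ k ∈ range l, (((if k = l then v else w k : ℕ)) : ℝ) * L ^ k =
          ∑ k ∈ range l, (w k : ℝ) * L ^ k :=
        sum_congr rfl fun k hk => by rw [if_neg (mem_range.1 hk).ne]
      show y = ∑ k ∈ range l, (((if k = l then v else w k : ℕ)) : ℝ) * L ^ k +
        (((if l = l then v else w l : ℕ)) : ℝ) * L ^ l + e
      rw [h7, if_pos rfl]
      linarith

theorem vals_free (n : ℕ) (a : ℕ → ℝ) : ∀ j : ℕ, ∃ V : Finset ℝ, V.card ≤ n ^ j ∧
    ∀ w : ℕ → ℕ, (∀ k, w k < n) → ∑ k ∈ range j, (w k : ℝ) * a k ∈ V := by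
  intro j
  induction j with
  | zero => exact ⟨{0}, by simp, fun w _ => by simp⟩
  | succ j ih =>
    obtain ⟨V, h1, h2⟩ := ih
    refine ⟨(V ×ˢ range n).image fun p => p.1 + (p.2 : ℝ) * a j, ?_, fun w hw => ?_⟩
    · refine card_image_le.trans ?_
      rw [card_product, card_range, pow_succ]
      exact Nat.mul_le_mul_right _ h1
    · rw [sum_range_succ]
      exact mem_image.2 ⟨(_, w j), mem_product.2 ⟨h2 w hw, mem_range.2 (hw j)⟩, rfl⟩

theorem vals_pairs (L : ℝ) {n : ℕ} (hn : 1 ≤ n) {σ : ℝ} (hσ : σ = 1 ∨ σ = -1) :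
    ∀ m : ℕ, ∃ V : Finset ℝ, V.card ≤ (2 * n - 1) ^ ((m + 1) / 2) ∧
      ∀ u : ℕ → ℕ, (∀ k, u k < n) →
        ∑ i ∈ range m, (u i : ℝ) * (L ^ (m - 1 - i) + σ * L ^ i) ∈ V := by
  have hD : ∃ D : Finset ℝ, D.card ≤ 2 * n - 1 ∧
      ∀ a b : ℕ, a < n → b < n → (a : ℝ) + σ * b ∈ D := by
    rcases hσ with rfl | rfl
    · refine ⟨(range (2 * n - 1)).image fun k : ℕ => (k : ℝ), card_image_le.trans (by simp),
        fun a b ha hb => mem_image.2 ⟨a + b, mem_range.2 (by omega), by push_cast; ring⟩⟩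
    · refine ⟨(range (2 * n - 1)).image fun k : ℕ => (k : ℝ) - (n - 1),
        card_image_le.trans (by simp),
        fun a b ha hb => mem_image.2 ⟨a + (n - 1) - b, mem_range.2 (by omega), ?_⟩⟩
      rw [Nat.cast_sub (by omega), Nat.cast_add, Nat.cast_sub hn]
      push_cast
      ring
  have hσ2 : σ * σ = 1 := by rcases hσ with rfl | rfl <;> norm_num
  intro m
  induction m using Nat.twoStepInduction with
  | zero => exact ⟨{0}, by simp, fun u _ => by simp⟩
  | one =>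
    obtain ⟨V, h1, h2⟩ := vals_free n (fun _ => 1 + σ) 1
    refine ⟨V, h1.trans ?_, fun u hu => ?_⟩
    · show n ^ 1 ≤ (2 * n - 1) ^ 1
      rw [pow_one, pow_one]
      omega
    · have := h2 u hu
      simpa using this
  | more m ih _ =>
    obtain ⟨V, h1, h2⟩ := ih
    obtain ⟨D, hD1, hD2⟩ := hD
    refine ⟨(D ×ˢ V).image fun p => p.1 * (L ^ (m + 1) + σ) + L * p.2, ?_, fun u hu => ?_⟩
    · refine card_image_le.trans ?_
      rw [card_product]
      have : (m + 2 + 1) / 2 = (m + 1) / 2 + 1 := by omega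
      rw [this, pow_succ, mul_comm]
      exact Nat.mul_le_mul h1 hD1
    · have h3 := h2 (fun i => u (i + 1)) fun k => hu _
      refine mem_image.2 ⟨((u 0 : ℝ) + σ * u (m + 1), _),
        mem_product.2 ⟨hD2 _ _ (hu _) (hu _), h3⟩, ?_⟩
      show ((u 0 : ℝ) + σ * u (m + 1)) * (L ^ (m + 1) + σ) +
        L * ∑ i ∈ range m, (u (i + 1) : ℝ) * (L ^ (m - 1 - i) + σ * L ^ i) = _
      rw [sum_range_succ, sum_range_succ', mul_sum]
      have h4 : ∀ i ∈ range m, (u (i + 1) : ℝ) * (L ^ (m + 2 - 1 - (i + 1)) + σ * L ^ (i + 1)) =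
          L * ((u (i + 1) : ℝ) * (L ^ (m - 1 - i) + σ * L ^ i)) := by
        intro i hi
        have hi' := mem_range.1 hi
        have h5 : m + 2 - 1 - (i + 1) = (m - 1 - i) + 1 := by omega
        rw [h5, pow_succ, pow_succ]
        ring
      rw [sum_congr rfl h4]
      have h6 : m + 2 - 1 - 0 = m + 1 := by omega
      have h7 : m + 2 - 1 - (m + 1) = 0 := by omega
      rw [h6, h7, pow_zero]
      linear_combination (u (m + 1) : ℝ) * hσ2

/-- **the reversal of digits** -/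
theorem core : S_CORE := by
  intro L hL
  have hL0 : 0 < L := by linarith
  have hL1 : 1 < L := by linarith
  obtain ⟨n, hn⟩ : ∃ n : ℕ, n = ⌈L⌉₊ := ⟨_, rfl⟩
  have hLn : L ≤ n := by rw [hn]; exact Nat.le_ceil L
  have hnL : (n : ℝ) < L + 1 := by rw [hn]; exact Nat.ceil_lt_add_one hL0.le
  have hn1 : 1 ≤ n := by
    have : (0:ℝ) < n := by linarith
    exact_mod_cast this
  obtain ⟨B, hB⟩ : ∃ B : ℕ, B = 2 * n - 1 := ⟨_, rfl⟩
  have hBr : (B : ℝ) = 2 * n - 1 := by
    rw [hB, Nat.cast_sub (by omega)]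
    push_cast
    ring
  have hB1 : (1:ℝ) < B := by rw [hBr]; linarith
  have hBL : (B : ℝ) < L ^ 2 := by rw [hBr]; nlinarith
  have hnL2 : (n : ℝ) ≤ L ^ 2 := by nlinarith
  have hlog : 0 < Real.log L := Real.log_pos hL1
  obtain ⟨s, hs⟩ : ∃ s : ℝ, s = Real.log B / (2 * Real.log L) := ⟨_, rfl⟩
  have hs0 : 0 ≤ s := by
    rw [hs]
    exact div_nonneg (Real.log_nonneg hB1.le) (by positivity)
  have hs1 : s < 1 := by
    rw [hs, div_lt_one (by positivity)]
    have := Real.log_lt_log (by linarith) hBL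
    rwa [Real.log_pow] at this
  have hBs : (B : ℝ) = L ^ (2 * s) := by
    rw [Real.rpow_def_of_pos hL0, hs]
    have : Real.log L * (2 * (Real.log B / (2 * Real.log L))) = Real.log B := by
      field_simp
    rw [this, Real.exp_log (by linarith)]
  refine ⟨(1 + s) / 2, (1 - s) / 4, n * L + 3 * L ^ 2, by positivity, by linarith, by linarith,
    by linarith, by nlinarith, ?_⟩
  intro M hM
  have hM1 : (1:ℝ) ≤ M := by exact_mod_cast hM
  have hM0 : (0:ℝ) < M := by linarith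
  -- the length
  have hex : ∃ l : ℕ, (M : ℝ) ≤ L ^ l := by
    obtain ⟨l, hl⟩ := pow_unbounded_of_one_lt (M : ℝ) hL1
    exact ⟨l, hl.le⟩
  obtain ⟨l, hl⟩ : ∃ l : ℕ, l = Nat.find hex := ⟨_, rfl⟩
  have hMl : (M : ℝ) ≤ L ^ l := by rw [hl]; exact Nat.find_spec hex
  have hlM : L ^ l ≤ L * M := by
    rcases Nat.eq_zero_or_pos l with h | h
    · rw [h, pow_zero]
      nlinarith
    · have h1 : ¬ (M : ℝ) ≤ L ^ (l - 1) := Nat.find_min hex (by omega)
      have h2 : L ^ l = L * L ^ (l - 1) := by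
        rw [← pow_succ']
        congr 1
        omega
      rw [h2]
      push Not at h1
      nlinarith
  have hsumL : ∀ k : ℕ, ∑ i ∈ range k, L ^ i ≤ L ^ k := by
    intro k
    induction k with
    | zero => simp
    | succ k ih =>
      rw [sum_range_succ, pow_succ]
      have : 0 < L ^ k := by positivity
      nlinarith
  -- the digits
  have hdig : ∀ d : ℕ, ∃ w : ℕ → ℕ, (∀ k, w k < n) ∧ (d < M → ∃ e : ℝ, 0 ≤ e ∧ e ≤ 1 ∧
      (d : ℝ) = ∑ k ∈ range l, (w k : ℝ) * L ^ k + e) := by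
    intro d
    by_cases hd : d < M
    · have h1 : (d : ℝ) ≤ L ^ l := by
        have : (d : ℝ) < M := by exact_mod_cast hd
        linarith
      obtain ⟨w, hw, e, he⟩ := digits hL1 hLn l d (Nat.cast_nonneg d) h1
      exact ⟨w, hw, fun _ => ⟨e, he⟩⟩
    · exact ⟨fun _ => 0, fun _ => hn1, fun h => absurd h hd⟩
  choose w hw he using hdig
  refine ⟨fun d => ∑ k ∈ range l, (w d k : ℝ) * L ^ (l - 1 - k), fun d _ => ?_, ?_⟩
  · have h1 : 0 ≤ ∑ k ∈ range l, (w d k : ℝ) * L ^ (l - 1 - k) :=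
      sum_nonneg fun k _ => by positivity
    show |∑ k ∈ range l, (w d k : ℝ) * L ^ (l - 1 - k)| ≤ _
    rw [abs_of_nonneg h1]
    have h2 : ∑ k ∈ range l, (w d k : ℝ) * L ^ (l - 1 - k) ≤
        ∑ k ∈ range l, (n : ℝ) * L ^ (l - 1 - k) := by
      refine sum_le_sum fun k _ => mul_le_mul_of_nonneg_right ?_ (by positivity)
      exact_mod_cast (hw d k).le
    have h3 : ∑ k ∈ range l, (n : ℝ) * L ^ (l - 1 - k) = n * ∑ k ∈ range l, L ^ k := by
      rw [← mul_sum, sum_range_reflect (fun k => L ^ k) l]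
    rw [h3] at h2
    have h4 : (n : ℝ) * ∑ k ∈ range l, L ^ k ≤ n * (L * M) :=
      mul_le_mul_of_nonneg_left ((hsumL l).trans hlM) (by positivity)
    have h5 : 0 ≤ 3 * L ^ 2 * M := by positivity
    nlinarith
  -- the count
  have hcount : ∀ (j : ℕ) (σ : ℝ), (σ = 1 ∨ σ = -1) → L ^ j ≤ (M : ℝ) ^ ((1 - s) / 4) →
      ((cells M (fun d => ∑ k ∈ range l, (w d k : ℝ) * L ^ (l - 1 - k)) (σ * (1 / L ^ j))).card : ℝ)
        ≤ (n * L + 3 * L ^ 2) * (M : ℝ) ^ ((1 + s) / 2) := by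
    intro j σ hσ hj
    have hLj : 0 < L ^ j := by positivity
    have hLj1 : 1 ≤ L ^ j := one_le_pow₀ hL1.le
    have hjl : j ≤ l := by
      have h1 : (M : ℝ) ^ ((1 - s) / 4) ≤ (M : ℝ) ^ (1 : ℝ) :=
        Real.rpow_le_rpow_of_exponent_le hM1 (by linarith)
      rw [Real.rpow_one] at h1
      exact (pow_le_pow_iff_right₀ hL1).1 (hj.trans (h1.trans hMl))
    obtain ⟨m, rfl⟩ := Nat.exists_eq_add_of_le hjl
    obtain ⟨V1, hV1, hV1'⟩ := vals_free n
      (fun k => L ^ (j + m - 1 - k) + σ * (1 / L ^ j) * L ^ k) j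
    obtain ⟨V2, hV2, hV2'⟩ := vals_pairs L hn1 hσ m
    rw [← hB] at hV2
    have hsub : cells M (fun d => ∑ k ∈ range (j + m), (w d k : ℝ) * L ^ (j + m - 1 - k))
        (σ * (1 / L ^ j)) ⊆
        ((V1 ×ˢ V2) ×ˢ ({-1, 0, 1} : Finset ℤ)).image fun p => ⌊p.1.1 + p.1.2⌋ + p.2 := by
      intro z hz
      rw [cells, mem_image] at hz
      obtain ⟨d, hd, rfl⟩ := hz
      obtain ⟨e, he0, he1, hde⟩ := he d (mem_range.1 hd)
      have h1 := hV1' (w d) (hw d)
      have h2 := hV2' (fun i => w d (j + i)) (fun i => hw d _)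
      obtain ⟨s1, hs1⟩ : ∃ s1 : ℝ, s1 = ∑ k ∈ range j,
        (w d k : ℝ) * (L ^ (j + m - 1 - k) + σ * (1 / L ^ j) * L ^ k) := ⟨_, rfl⟩
      obtain ⟨s2, hs2⟩ : ∃ s2 : ℝ, s2 = ∑ i ∈ range m,
        (w d (j + i) : ℝ) * (L ^ (m - 1 - i) + σ * L ^ i) := ⟨_, rfl⟩
      rw [← hs1] at h1
      rw [← hs2] at h2
      have h3 : (∑ k ∈ range (j + m), (w d k : ℝ) * L ^ (j + m - 1 - k)) + σ * (1 / L ^ j) * d =
          (s1 + s2) + σ * (1 / L ^ j) * e := by
        rw [hde, mul_add, ← add_assoc, mul_sum, ← sum_add_distrib, hs1, hs2, sum_range_add]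
        congr 2
        · exact sum_congr rfl fun k _ => by ring
        · refine sum_congr rfl fun i hi => ?_
          have h4 : j + m - 1 - (j + i) = m - 1 - i := by omega
          rw [h4, pow_add]
          field_simp
      have h5 : |σ * (1 / L ^ j) * e| ≤ 1 := by
        have h6 : |σ| = 1 := by rcases hσ with rfl | rfl <;> norm_num
        rw [abs_mul, abs_mul, h6, one_mul, abs_of_pos (by positivity), abs_of_nonneg he0]
        have h7 : 1 / L ^ j ≤ 1 := (div_le_one hLj).2 hLj1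
        exact mul_le_one₀ h7 he0 he1
      have h8 := abs_le.1 h5
      refine mem_image.2 ⟨((s1, s2), ⌊(s1 + s2) + σ * (1 / L ^ j) * e⌋ - ⌊s1 + s2⌋),
        mem_product.2 ⟨mem_product.2 ⟨h1, h2⟩, ?_⟩, ?_⟩
      · have h9 : ⌊s1 + s2⌋ - 1 ≤ ⌊(s1 + s2) + σ * (1 / L ^ j) * e⌋ := by
          rw [Int.le_floor]
          push_cast
          have := Int.floor_le (s1 + s2)
          linarith [h8.1]
        have h10 : ⌊(s1 + s2) + σ * (1 / L ^ j) * e⌋ < ⌊s1 + s2⌋ + 2 := by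
          rw [Int.floor_lt]
          push_cast
          have := Int.lt_floor_add_one (s1 + s2)
          linarith [h8.2]
        simp only [mem_insert, mem_singleton]
        omega
      · show ⌊s1 + s2⌋ + (⌊(s1 + s2) + σ * (1 / L ^ j) * e⌋ - ⌊s1 + s2⌋) =
          ⌊(∑ k ∈ range (j + m), (w d k : ℝ) * L ^ (j + m - 1 - k)) + σ * (1 / L ^ j) * d⌋
        rw [h3]
        ring
    have hc1 : ((cells M (fun d => ∑ k ∈ range (j + m), (w d k : ℝ) * L ^ (j + m - 1 - k))
        (σ * (1 / L ^ j))).card : ℝ) ≤ (n : ℝ) ^ j * (B : ℝ) ^ ((m + 1) / 2) * 3 := by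
      have h1 := (card_le_card hsub).trans card_image_le
      rw [card_product, card_product] at h1
      have h2 : ({-1, 0, 1} : Finset ℤ).card = 3 := by decide
      rw [h2] at h1
      have h3 : V1.card * V2.card * 3 ≤ n ^ j * B ^ ((m + 1) / 2) * 3 :=
        Nat.mul_le_mul_right _ (Nat.mul_le_mul hV1 hV2)
      exact_mod_cast h1.trans h3
    refine hc1.trans ?_
    have h1 : (n : ℝ) ^ j ≤ (M : ℝ) ^ ((1 - s) / 2) := by
      have h2 : (n : ℝ) ^ j ≤ (L ^ 2) ^ j := pow_le_pow_left₀ (Nat.cast_nonneg n) hnL2 j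
      have h3 : (L ^ 2) ^ j = (L ^ j) ^ 2 := by rw [← pow_mul, ← pow_mul, mul_comm]
      have h4 : (L ^ j) ^ 2 ≤ ((M : ℝ) ^ ((1 - s) / 4)) ^ 2 := pow_le_pow_left₀ hLj.le hj 2
      have h5 : ((M : ℝ) ^ ((1 - s) / 4)) ^ 2 = (M : ℝ) ^ ((1 - s) / 2) := by
        rw [← Real.rpow_natCast, ← Real.rpow_mul hM0.le]
        congr 1
        push_cast
        ring
      rw [h3] at h2
      rw [h5] at h4
      exact h2.trans h4
    have h2 : (B : ℝ) ^ ((m + 1) / 2) ≤ L ^ 2 * (M : ℝ) ^ s := by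
      have h3 : (B : ℝ) ^ ((m + 1) / 2) = L ^ (2 * s * (((m + 1) / 2 : ℕ) : ℝ)) := by
        rw [← Real.rpow_natCast (B : ℝ), hBs, ← Real.rpow_mul hL0.le]
      have h4 : (((m + 1) / 2 : ℕ) : ℝ) ≤ ((j + m : ℕ) + 1) / 2 := by
        have h5 : (m + 1) / 2 * 2 ≤ (j + m) + 1 := by omega
        have h6 : ((((m + 1) / 2 : ℕ)) : ℝ) * 2 ≤ (j + m : ℕ) + 1 := by exact_mod_cast h5
        linarith
      have h5 : L ^ (2 * s * (((m + 1) / 2 : ℕ) : ℝ)) ≤ L ^ (((j + m + 1 : ℕ) : ℝ) * s) := by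
        refine Real.rpow_le_rpow_of_exponent_le hL1.le ?_
        push_cast at h4 ⊢
        nlinarith
      have h6 : L ^ (((j + m + 1 : ℕ) : ℝ) * s) = (L ^ (j + m + 1)) ^ s := by
        rw [Real.rpow_mul hL0.le, Real.rpow_natCast]
      have h7 : (L ^ (j + m + 1)) ^ s ≤ (L ^ 2 * M) ^ s := by
        refine Real.rpow_le_rpow (by positivity) ?_ hs0
        rw [pow_succ]
        nlinarith
      have h8 : (L ^ 2 * (M : ℝ)) ^ s = (L ^ 2) ^ s * (M : ℝ) ^ s :=
        Real.mul_rpow (by positivity) hM0.le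
      have h9 : (L ^ 2) ^ s ≤ L ^ 2 := by
        have : (L ^ 2) ^ s ≤ (L ^ 2) ^ (1 : ℝ) :=
          Real.rpow_le_rpow_of_exponent_le (one_le_pow₀ hL1.le) hs1.le
        rwa [Real.rpow_one] at this
      rw [h3]
      refine h5.trans ?_
      rw [h6]
      refine h7.trans ?_
      rw [h8]
      exact mul_le_mul_of_nonneg_right h9 (by positivity)
    have h3 : (n : ℝ) ^ j * (B : ℝ) ^ ((m + 1) / 2) * 3 ≤
        (M : ℝ) ^ ((1 - s) / 2) * (L ^ 2 * (M : ℝ) ^ s) * 3 := by gcongr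
    have h4 : (M : ℝ) ^ ((1 - s) / 2) * (L ^ 2 * (M : ℝ) ^ s) * 3 =
        3 * L ^ 2 * (M : ℝ) ^ ((1 + s) / 2) := by
      have : (M : ℝ) ^ ((1 + s) / 2) = (M : ℝ) ^ ((1 - s) / 2) * (M : ℝ) ^ s := by
        rw [← Real.rpow_add hM0]
        congr 1
        ring
      rw [this]
      ring
    rw [h4] at h3
    refine h3.trans (mul_le_mul_of_nonneg_right ?_ (by positivity))
    have : 0 ≤ (n : ℝ) * L := by positivity
    linarith
  intro j hj
  refine ⟨?_, ?_⟩
  · have := hcount j 1 (Or.inl rfl) hj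
    rwa [one_mul] at this
  · have := hcount j (-1) (Or.inr rfl) hj
    rwa [neg_one_mul] at this

end Pool.Agent.Helper1.GT
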